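import Mathlib
import Pool.Agent.H96.M7.Trace

set_option autoImplicit false
open Set Filter Topology MeasureTheory Bornology Metric
open Pool.Agent.H83.Lo (UH)
open Pool.Agent.H96.M7

/-! Stability of the unbounded component of the complement of a curve in the half plane. -/

namespace Pool.Agent.H12.Q1

variable {β : ℝ → ℂ} {t : ℝ} {z : ℂ}

theorem ext_stab (hβ : ContinuousOn β (Ici 0)) (ht : 0 ≤ t) (hz : z ∈ Ext β t) :
    ∃ η > 0, η ≤ 1 ∧ ∀ β' : ℝ → ℂ, ContinuousOn β' (Ici 0) →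
      (∀ s ∈ Icc 0 (t + 1), ‖β' s - β s‖ ≤ η) → ∀ z' : ℂ, ‖z' - z‖ ≤ η → z' ∈ Ext β' (t + η) := by
  obtain ⟨M, hM⟩ := (isCompact_Icc.image_of_continuousOn (s := Icc 0 (t + 1))
    (hβ.mono Icc_subset_Ici_self)).isBounded.exists_norm_le
  have hM' : ∀ s ∈ Icc 0 (t + 1), ‖β s‖ ≤ |M| := fun s hs => (hM _ ⟨s, hs, rfl⟩).trans (le_abs_self _)
  set Y : ℝ := |M| + 2 with hY
  have hY0 : 0 < Y := by positivity
  have hj := (mem_Ext_iff_one (hβ.mono Icc_subset_Ici_self) hY0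
    (fun u hu => by have := hM' u ⟨hu.1, by linarith [hu.2]⟩; linarith) (z := z)).1 hz
  obtain ⟨γ, hγ⟩ := hj
  have hP : IsCompact (range γ) := isCompact_range γ.continuous
  have hsub : range γ ⊆ UH \ β '' Icc 0 t := by
    rintro _ ⟨u, rfl⟩
    exact hγ u
  obtain ⟨δ, hδ, hδs⟩ := hP.exists_thickening_subset_open
    (isOpen_compl_curve (hβ.mono Icc_subset_Ici_self)) hsub
  obtain ⟨η₁, hη₁, h1⟩ : ∃ η₁ > 0, ∀ s, t ≤ s → s < t + η₁ → dist (β s) (β t) < δ / 2 := by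
    have h2 := hβ t ht
    rw [Metric.continuousWithinAt_iff] at h2
    obtain ⟨η₁, hη₁, h3⟩ := h2 (δ / 2) (by positivity)
    refine ⟨η₁, hη₁, fun s hs hst => h3 (show (0:ℝ) ≤ s from ht.trans hs) ?_⟩
    rw [Real.dist_eq, abs_of_nonneg (by linarith)]
    linarith
  set η : ℝ := min (min 1 (η₁ / 2)) (δ / 4) with hη
  have hη0 : 0 < η := by positivity
  have hηa : η ≤ 1 := (min_le_left _ _).trans (min_le_left _ _)
  have hηb : η ≤ η₁ / 2 := (min_le_left _ _).trans (min_le_right _ _)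
  have hηc : η ≤ δ / 4 := min_le_right _ _
  refine ⟨η, hη0, hηa, ?_⟩
  intro β' hβ' hββ z' hz'
  have main : ∀ w, (∃ p ∈ range γ, dist w p ≤ δ / 4) → w ∈ UH \ β' '' Icc 0 (t + η) := by
    rintro w ⟨p, hp, hwp⟩
    refine ⟨(hδs (mem_thickening_iff.2 ⟨p, hp, by linarith⟩)).1, ?_⟩
    rintro ⟨s, hs, hsw⟩
    have h2 := hββ s ⟨hs.1, by linarith [hs.2]⟩
    rw [← dist_eq_norm, hsw] at h2
    have h3 : dist (β s) (β (min s t)) < δ / 2 := by
      rcases le_total s t with h4 | h4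
      · rw [min_eq_left h4, dist_self]; positivity
      · rw [min_eq_right h4]
        exact h1 s h4 (by linarith [hs.2])
    have h4 : dist (β (min s t)) p < δ := by
      calc dist (β (min s t)) p ≤ dist (β (min s t)) (β s) + dist (β s) w + dist w p :=
            dist_triangle4 _ _ _ _
        _ < δ / 2 + δ / 4 + δ / 4 := by
            rw [dist_comm (β (min s t)), dist_comm (β s) w]
            linarith
        _ = δ := by ring
    exact (hδs (mem_thickening_iff.2 ⟨p, hp, h4⟩)).2 ⟨min s t, ⟨le_min hs.1 ht, min_le_right _ _⟩, rfl⟩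
  have hzγ : z ∈ range γ := ⟨0, γ.source⟩
  have j1 : JoinedIn (UH \ β' '' Icc 0 (t + η)) z' z := by
    apply JoinedIn.of_segment_subset
    intro w hw
    refine main w ⟨z, hzγ, ?_⟩
    have h2 : w ∈ closedBall z (δ / 4) := by
      refine (convex_closedBall z (δ / 4)).segment_subset ?_ (mem_closedBall_self (by positivity)) hw
      rw [mem_closedBall, dist_eq_norm]
      exact hz'.trans hηc
    exact h2
  have j2 : JoinedIn (UH \ β' '' Icc 0 (t + η)) z (Y * Complex.I) :=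
    ⟨γ, fun u => main _ ⟨γ u, ⟨u, rfl⟩, by rw [dist_self]; positivity⟩⟩
  refine (mem_Ext_iff_one (hβ'.mono Icc_subset_Ici_self) hY0 ?_).2 (j1.trans j2)
  intro u hu
  have h2 : u ∈ Icc 0 (t + 1) := ⟨hu.1, by linarith [hu.2]⟩
  have h3 := hββ u h2
  have h4 := hM' u h2
  have h5 : ‖β' u‖ ≤ ‖β' u - β u‖ + ‖β u‖ := by
    simpa using norm_add_le (β' u - β u) (β u)
  linarith

theorem ext_stab_compact (hβ : ContinuousOn β (Ici 0)) (ht : 0 ≤ t) {K : Set ℂ} (hK : IsCompact K)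
    (hKD : K ⊆ Ext β t) :
    ∃ η > 0, η ≤ 1 ∧ ∀ β' : ℝ → ℂ, ContinuousOn β' (Ici 0) →
      (∀ s ∈ Icc 0 (t + 1), ‖β' s - β s‖ ≤ η) → K ⊆ Ext β' (t + η) := by
  refine hK.induction_on (p := fun S => ∃ η > 0, η ≤ 1 ∧ ∀ β' : ℝ → ℂ, ContinuousOn β' (Ici 0) →
    (∀ s ∈ Icc 0 (t + 1), ‖β' s - β s‖ ≤ η) → S ⊆ Ext β' (t + η)) ?_ ?_ ?_ ?_
  · exact ⟨1, one_pos, le_rfl, fun W' _ _ => empty_subset _⟩
  · rintro A B hAB ⟨η, h0, h1, h2⟩
    exact ⟨η, h0, h1, fun W' hW' h3 => hAB.trans (h2 W' hW' h3)⟩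
  · rintro A B ⟨η, h0, h1, h2⟩ ⟨θ, k0, k1, k2⟩
    refine ⟨min η θ, lt_min h0 k0, (min_le_left _ _).trans h1, fun W' hW' h3 => union_subset ?_ ?_⟩
    · exact (h2 W' hW' fun s hs => (h3 s hs).trans (min_le_left _ _)).trans
        (ext_anti (by linarith [min_le_left η θ]))
    · exact (k2 W' hW' fun s hs => (h3 s hs).trans (min_le_right _ _)).trans
        (ext_anti (by linarith [min_le_right η θ]))
  · intro z hz
    obtain ⟨η, h0, h1, h2⟩ := ext_stab hβ ht (hKD hz)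
    refine ⟨Metric.closedBall z η, mem_nhdsWithin_of_mem_nhds (Metric.closedBall_mem_nhds z h0),
      η, h0, h1, fun W' hW' h3 z' hz' => h2 W' hW' h3 z' ?_⟩
    rwa [Metric.mem_closedBall, dist_eq_norm] at hz'

end Pool.Agent.H12.Q1
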