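import Mathlib
import Pool.Agent.H96.M7.Ode2

set_option autoImplicit false
open Set Filter Topology MeasureTheory Bornology
open scoped NNReal
open Pool.Agent.H83.Lo (UH)
open Pool.Agent.H96.M7

/-! Stability of the domain of the Loewner flow in the driving function, the point and the time. -/

namespace Pool.Agent.H12.Q1

/-- Solution of the Loewner equation with the field frozen below the height `y`. -/
structure PSol (W : ℝ → ℝ) (y T : ℝ) (z : ℂ) (h : ℝ → ℂ) : Prop where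
  init : h 0 = z
  ode : ∀ s ∈ Icc 0 T, HasDerivWithinAt h (2 / (proj y (h s) - W s)) (Icc 0 T) s

variable {W W' : ℝ → ℝ} {y T t : ℝ} {z z' : ℂ} {h h' : ℝ → ℂ}

lemma PSol.cont (H : PSol W y T z h) : ContinuousOn h (Icc 0 T) :=
  fun s hs => (H.ode s hs).continuousWithinAt

lemma PSol.mono (H : PSol W y T z h) {T' : ℝ} (hT : T' ≤ T) : PSol W y T' z h :=
  ⟨H.init, fun s hs => (H.ode s ⟨hs.1, hs.2.trans hT⟩).mono (Icc_subset_Icc_right hT)⟩

lemma exists_psol (hW : ContinuousOn W (Icc 0 T)) (hT : 0 ≤ T) (hy : 0 < y) (z : ℂ) :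
    ∃ h, PSol W y T z h := by
  have hPy : ∀ k, y ≤ (proj y k).im := fun k => le_max_right _ _
  set f : ℝ → ℂ → ℂ := fun s k => 2 / (proj y k - W s) with hf
  have hbd : ∀ s k, ‖f s k‖ ≤ 2 / y := by
    intro s k
    simp only [hf]
    rw [norm_div]
    have e3 : ‖(2 : ℂ)‖ = 2 := by simp
    rw [e3]
    have := le_norm_sub_real (x := W s) (hPy k)
    gcongr
  set L : ℝ≥0 := ⟨2 / y, by positivity⟩ with hL
  set K : ℝ≥0 := ⟨2 / y ^ 2, by positivity⟩ with hK
  set a : ℝ≥0 := ⟨2 / y * T, by positivity⟩ with ha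
  set t₀ : Icc (0:ℝ) T := ⟨0, le_rfl, hT⟩ with ht₀
  have hpl : IsPicardLindelof f t₀ z a 0 L K := by
    refine ⟨?_, ?_, ?_, ?_⟩
    · intro s _
      apply LipschitzOnWith.of_dist_le_mul
      intro k _ k' _
      rw [dist_eq_norm, dist_eq_norm]
      calc ‖f s k - f s k'‖ ≤ 2 / y ^ 2 * ‖proj y k - proj y k'‖ :=
            two_div_lip hy (le_norm_sub_real (hPy k)) (le_norm_sub_real (hPy k'))
        _ ≤ K * ‖k - k'‖ := by
            change 2 / y ^ 2 * ‖proj y k - proj y k'‖ ≤ 2 / y ^ 2 * ‖k - k'‖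
            have := proj_lip y k k'
            gcongr
    · intro k _
      simp only [hf]
      refine continuousOn_const.div (continuousOn_const.sub
        (Complex.continuous_ofReal.comp_continuousOn hW)) ?_
      intro s _
      exact norm_pos_iff.1 (hy.trans_le (le_norm_sub_real (hPy k)))
    · intro s _ k _
      exact hbd s k
    · simp only [ht₀, NNReal.coe_zero, sub_zero, hL, ha]
      change 2 / y * max T 0 ≤ 2 / y * T
      rw [max_eq_left hT]
  obtain ⟨h, hht, hode⟩ := hpl.exists_eq_forall_mem_Icc_hasDerivWithinAt₀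
  exact ⟨h, hht, hode⟩

lemma PSol.sol (H : PSol W y T z h) (hy : 0 < y) (ht : t ≤ T) (him : ∀ s ∈ Icc 0 t, y ≤ (h s).im) :
    Sol W t z h := by
  refine ⟨H.init, fun s hs => hy.trans_le (him s hs), ?_⟩
  intro s hs
  have h1 := (H.mono ht).ode s hs
  have h2 : proj y (h s) = h s := by
    apply Complex.ext
    · rfl
    · simp only [proj]
      exact max_eq_left (him s hs)
  rwa [h2] at h1

lemma sol_psol (H : Sol W t z h) (him : ∀ s ∈ Icc 0 t, y ≤ (h s).im) : PSol W y t z h := by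
  refine ⟨H.init, ?_⟩
  intro s hs
  have h1 := H.ode s hs
  have h2 : proj y (h s) = h s := by
    apply Complex.ext
    · rfl
    · simp only [proj]
      exact max_eq_left (him s hs)
  rwa [h2]

lemma two_div_drv {A : ℂ} {x x' : ℝ} (hy : 0 < y) (hA : y ≤ ‖A - x‖) (hB : y ≤ ‖A - x'‖) :
    ‖2 / (A - x) - 2 / (A - x')‖ ≤ 2 / y ^ 2 * |x - x'| := by
  have n1 : A - x ≠ 0 := norm_pos_iff.1 (hy.trans_le hA)
  have n2 : A - x' ≠ 0 := norm_pos_iff.1 (hy.trans_le hB)
  have e : 2 / (A - x) - 2 / (A - x') = (2 * ((x : ℂ) - x')) / ((A - x) * (A - x')) := by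
    rw [div_sub_div _ _ n1 n2]
    congr 1
    ring
  rw [e, norm_div, norm_mul, norm_mul]
  have e3 : ‖(2 : ℂ)‖ = 2 := by simp
  have e4 : ‖(x : ℂ) - x'‖ = |x - x'| := by
    rw [← Complex.ofReal_sub, Complex.norm_real, Real.norm_eq_abs]
  rw [e3, e4, div_mul_eq_mul_div, pow_two]
  gcongr

/-- Gronwall. -/
lemma PSol.close (H : PSol W y T z h) (H' : PSol W' y T z' h') (hT : 0 ≤ T) (hy : 0 < y) {η : ℝ}
    (hη : ∀ s ∈ Icc 0 T, |W' s - W s| ≤ η) {s : ℝ} (hs : s ∈ Icc 0 T) :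
    ‖h s - h' s‖ ≤ (‖z - z'‖ + η) * Real.exp (2 / y ^ 2 * T) := by
  have hη0 : 0 ≤ η := (abs_nonneg _).trans (hη 0 ⟨le_rfl, hT⟩)
  have hPy : ∀ k, y ≤ (proj y k).im := fun k => le_max_right _ _
  set K : ℝ≥0 := ⟨2 / y ^ 2, by positivity⟩ with hK
  have hKv : (K : ℝ) = 2 / y ^ 2 := rfl
  have hK0 : (K : ℝ) ≠ 0 := by rw [hKv]; positivity
  have der : ∀ {V : ℝ → ℝ} {w : ℂ} {g : ℝ → ℂ}, PSol V y T w g → ∀ u ∈ Ico 0 T,
      HasDerivWithinAt g (2 / (proj y (g u) - V u)) (Ici u) u := by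
    intro V w g G u hu
    have h1 := G.ode u ⟨hu.1, hu.2.le⟩
    have h2 : Icc u T ⊆ Icc 0 T := Icc_subset_Icc_left hu.1
    exact (h1.mono h2).mono_of_mem_nhdsWithin (Icc_mem_nhdsGE hu.2)
  have key := dist_le_of_approx_trajectories_ODE (v := fun s k => 2 / (proj y k - W s)) (K := K)
    (f := h) (g := h') (f' := fun s => 2 / (proj y (h s) - W s))
    (g' := fun s => 2 / (proj y (h' s) - W' s)) (a := 0) (b := T) (εf := 0)
    (εg := 2 / y ^ 2 * η) (δ := ‖z - z'‖)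
    (fun u _ => by
      apply LipschitzWith.of_dist_le_mul
      intro k k'
      rw [dist_eq_norm, dist_eq_norm]
      calc ‖2 / (proj y k - W u) - 2 / (proj y k' - W u)‖ ≤ 2 / y ^ 2 * ‖proj y k - proj y k'‖ :=
            two_div_lip hy (le_norm_sub_real (hPy k)) (le_norm_sub_real (hPy k'))
        _ ≤ K * ‖k - k'‖ := by
            change 2 / y ^ 2 * ‖proj y k - proj y k'‖ ≤ 2 / y ^ 2 * ‖k - k'‖
            have := proj_lip y k k'
            gcongr)
    H.cont (der H) (fun u _ => by rw [dist_self]) H'.cont (der H')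
    (fun u hu => by
      rw [dist_eq_norm]
      refine (two_div_drv hy (le_norm_sub_real (hPy _)) (le_norm_sub_real (hPy _))).trans ?_
      have := hη u ⟨hu.1, hu.2.le⟩
      gcongr)
    (by rw [H.init, H'.init, dist_eq_norm]) s hs
  rw [dist_eq_norm, sub_zero, zero_add, gronwallBound_of_K_ne_0 hK0, hKv] at key
  have e1 : 2 / y ^ 2 * η / (2 / y ^ 2) = η := by field_simp
  rw [e1] at key
  refine key.trans ?_
  have e2 : Real.exp (2 / y ^ 2 * s) ≤ Real.exp (2 / y ^ 2 * T) := by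
    have := hs.2
    gcongr
  have e3 : η * (Real.exp (2 / y ^ 2 * s) - 1) ≤ η * Real.exp (2 / y ^ 2 * T) := by
    apply mul_le_mul_of_nonneg_left _ hη0
    linarith
  have e4 : ‖z - z'‖ * Real.exp (2 / y ^ 2 * s) ≤ ‖z - z'‖ * Real.exp (2 / y ^ 2 * T) :=
    mul_le_mul_of_nonneg_left e2 (norm_nonneg _)
  linarith

/-- **Stability of the domain of the flow.** -/
theorem dom_stab (hW : Continuous W) (ht : 0 ≤ t) (hz : z ∈ Dom W t) :
    ∃ η > 0, η ≤ 1 ∧ ∀ W' : ℝ → ℝ, Continuous W' → (∀ s ∈ Icc 0 (t + 1), |W' s - W s| ≤ η) →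
      ∀ z' : ℂ, ‖z' - z‖ ≤ η → z' ∈ Dom W' (t + η) := by
  obtain ⟨-, h, H⟩ := hz
  set y : ℝ := (h t).im / 2 with hy
  have hy0 : 0 < y := half_pos (H.pos t ⟨ht, le_rfl⟩)
  have him : ∀ s ∈ Icc 0 t, 2 * y ≤ (h s).im := by
    intro s hs
    have := H.im_anti hs ⟨ht, le_rfl⟩ hs.2
    simp only at this
    rw [hy]; linarith
  have H1 : PSol W y t z h := sol_psol H fun s hs => by linarith [him s hs]
  have hT : 0 ≤ t + 1 := by linarith
  obtain ⟨g, G⟩ := exists_psol (W := W) (T := t + 1) hW.continuousOn hT hy0 z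
  have hgh : ∀ s ∈ Icc 0 t, g s = h s := by
    intro s hs
    have h1 := (G.mono (by linarith : t ≤ t + 1)).close H1 ht hy0 (η := 0)
      (fun u _ => by rw [sub_self, abs_zero]) hs
    rw [sub_self, norm_zero, add_zero, zero_mul] at h1
    exact sub_eq_zero.1 (norm_le_zero_iff.1 h1)
  -- a little longer
  obtain ⟨η₁, hη₁, h1⟩ : ∃ η₁ > 0, ∀ s ∈ Icc 0 (t + 1), |s - t| < η₁ → ‖g s - g t‖ < y / 2 := by
    have h2 := G.cont t ⟨ht, by linarith⟩
    rw [Metric.continuousWithinAt_iff] at h2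
    obtain ⟨δ, hδ, h3⟩ := h2 (y / 2) (by positivity)
    exact ⟨δ, hδ, fun s hs hst => by
      have := h3 hs (by rw [Real.dist_eq]; exact hst)
      rwa [dist_eq_norm] at this⟩
  set C : ℝ := Real.exp (2 / y ^ 2 * (t + 1)) with hC
  have hC0 : 0 < C := Real.exp_pos _
  set η : ℝ := min (min 1 (η₁ / 2)) (y / (4 * C)) with hη
  have hη0 : 0 < η := by positivity
  have hηa : η ≤ 1 := (min_le_left _ _).trans (min_le_left _ _)
  have hηb : η ≤ η₁ / 2 := (min_le_left _ _).trans (min_le_right _ _)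
  have hηc : η * C ≤ y / 4 := by
    have : η ≤ y / (4 * C) := min_le_right _ _
    calc η * C ≤ y / (4 * C) * C := by gcongr
      _ = y / 4 := by field_simp
  have hgim : ∀ s ∈ Icc 0 (t + η), 3 / 2 * y ≤ (g s).im := by
    intro s hs
    rcases le_total s t with h2 | h2
    · rw [hgh s ⟨hs.1, h2⟩]
      have := him s ⟨hs.1, h2⟩
      linarith
    · have h3 := h1 s ⟨hs.1, by linarith [hs.2]⟩ (by
        rw [abs_of_nonneg (by linarith)]; linarith [hs.2])
      have h4 : (g t).im - (g s).im ≤ ‖g s - g t‖ := by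
        have h5 := Complex.abs_im_le_norm (g s - g t)
        rw [Complex.sub_im, abs_sub_comm] at h5
        exact (le_abs_self _).trans h5
      rw [hgh t ⟨ht, le_rfl⟩] at h4 h3
      have := him t ⟨ht, le_rfl⟩
      linarith
  refine ⟨η, hη0, hηa, ?_⟩
  intro W' hW' hWW z' hz'
  obtain ⟨g', G'⟩ := exists_psol (W := W') (T := t + 1) hW'.continuousOn hT hy0 z'
  have hg'im : ∀ s ∈ Icc 0 (t + η), y ≤ (g' s).im := by
    intro s hs
    have h2 := G.close G' hT hy0 hWW (s := s) ⟨hs.1, by linarith [hs.2]⟩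
    have h3 : (‖z - z'‖ + η) * C ≤ y / 2 := by
      rw [norm_sub_rev] at hz'
      nlinarith
    have h4 : (g s).im - (g' s).im ≤ ‖g s - g' s‖ := by
      have h5 := Complex.abs_im_le_norm (g s - g' s)
      rw [Complex.sub_im] at h5
      exact (le_abs_self _).trans h5
    have := hgim s hs
    linarith
  exact mem_Dom (by linarith) (G'.sol hy0 (by linarith) hg'im)

theorem dom_stab_compact (hW : Continuous W) (ht : 0 ≤ t) {K : Set ℂ} (hK : IsCompact K)
    (hKD : K ⊆ Dom W t) :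
    ∃ η > 0, η ≤ 1 ∧ ∀ W' : ℝ → ℝ, Continuous W' → (∀ s ∈ Icc 0 (t + 1), |W' s - W s| ≤ η) →
      K ⊆ Dom W' (t + η) := by
  refine hK.induction_on (p := fun S => ∃ η > 0, η ≤ 1 ∧ ∀ W' : ℝ → ℝ, Continuous W' →
    (∀ s ∈ Icc 0 (t + 1), |W' s - W s| ≤ η) → S ⊆ Dom W' (t + η)) ?_ ?_ ?_ ?_
  · exact ⟨1, one_pos, le_rfl, fun W' _ _ => empty_subset _⟩
  · rintro A B hAB ⟨η, h0, h1, h2⟩
    exact ⟨η, h0, h1, fun W' hW' h3 => hAB.trans (h2 W' hW' h3)⟩
  · rintro A B ⟨η, h0, h1, h2⟩ ⟨θ, k0, k1, k2⟩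
    refine ⟨min η θ, lt_min h0 k0, (min_le_left _ _).trans h1, fun W' hW' h3 => union_subset ?_ ?_⟩
    · exact (h2 W' hW' fun s hs => (h3 s hs).trans (min_le_left _ _)).trans
        (Dom_anti (by linarith [min_le_left η θ]))
    · exact (k2 W' hW' fun s hs => (h3 s hs).trans (min_le_right _ _)).trans
        (Dom_anti (by linarith [min_le_right η θ]))
  · intro z hz
    obtain ⟨η, h0, h1, h2⟩ := dom_stab hW ht (hKD hz)
    refine ⟨Metric.closedBall z η, mem_nhdsWithin_of_mem_nhds (Metric.closedBall_mem_nhds z h0),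
      η, h0, h1, fun W' hW' h3 z' hz' => h2 W' hW' h3 z' ?_⟩
    rwa [Metric.mem_closedBall, dist_eq_norm] at hz'

end Pool.Agent.H12.Q1
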