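import Mathlib
import Pool.Agent.H12.Q1.Stab
import Pool.Agent.H12.Q1.ExtStab
import Pool.Agent.H96.M7.Rel
import Pool.Agent.H54.M7.Cont

set_option autoImplicit false
open Set Filter Topology MeasureTheory Bornology Metric ProbabilityTheory
open scoped NNReal unitInterval
open Pool.Agent.H83.Lo (UH)
open Pool.Agent.H96.M7
open Pool.Agent.H81.Q1 (PCurve Curve continuous_mk)
open Pool.Agent.H82.Q1

/-! # Uniqueness of the law of chordal SLE

`isSLE_unique`: two probability measures which satisfy `IsSLE κ D a b` are equal. The relation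
`e` is the image of the trace of the Loewner chain driven by `f` is a Borel subset of
`C(I, ℂ) × C(ℝ≥0, ℝ)` in which the second coordinate determines the first. -/

namespace Pool.Agent.H12.Q1

variable {D : Set ℂ} {a b : ℂ} {φ : ℂ → ℂ}

/-- Curves from `a` to `b` in the closure of the domain, which hit `b` only at the end. -/
def Cur (φ : ℂ → ℂ) (a b : ℂ) : Set C(I, ℂ) :=
  {e | e 0 = a ∧ e 1 = b ∧ ∀ s : I, (s : ℝ) < 1 → e s ∈ φ '' cHH}

/-- The curve in the half plane in capacity time. -/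
noncomputable def beta (φ : ℂ → ℂ) (e : C(I, ℂ)) (t : ℝ) : ℂ := psi φ (cap e t)

lemma cap_mem {e : C(I, ℂ)} (he : e ∈ Cur φ a b) {t : ℝ} (ht : 0 ≤ t) : cap e t ∈ φ '' cHH := by
  rw [cap_eq e ht]
  apply he.2.2
  change t / (1 + t) < 1
  rw [div_lt_one (by linarith)]
  linarith

lemma beta_cont (h : IsChart D a b φ) {e : C(I, ℂ)} (he : e ∈ Cur φ a b) :
    ContinuousOn (beta φ e) (Ici 0) :=
  (psi_cont h).comp (cap_cont e) fun _ ht => cap_mem he ht

lemma beta_close (h : IsChart D a b φ) (e : Cur φ a b) (T : ℝ) {η : ℝ} (hη : 0 < η) :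
    ∀ᶠ e' : Cur φ a b in 𝓝 e, ∀ s ∈ Icc 0 T, ‖beta φ e' s - beta φ e s‖ ≤ η := by
  set G : Cur φ a b × ℝ → ℂ := fun x => beta φ x.1 (max x.2 0) with hG
  have hGc : Continuous G := by
    apply (psi_cont h).comp_continuous (f := fun x : Cur φ a b × ℝ => cap x.1 (max x.2 0))
    · unfold cap
      have h1 : Continuous fun x : Cur φ a b × ℝ =>
          projIcc (0:ℝ) 1 zero_le_one (max x.2 0 / (1 + max x.2 0)) := by
        refine continuous_projIcc.comp (Continuous.div (by fun_prop) (by fun_prop) ?_)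
        intro x
        have := le_max_right x.2 0
        positivity
      exact (continuous_subtype_val.comp continuous_fst).eval h1
    · intro x
      exact cap_mem x.1.2 (le_max_right _ _)
  have key : ∀ᶠ e' : Cur φ a b in 𝓝 e, ∀ s ∈ Icc 0 T, ‖G (e', s) - G (e, s)‖ < η := by
    apply isCompact_Icc.eventually_forall_of_forall_eventually
    intro s hs
    have h2 : Continuous fun z : Cur φ a b × ℝ => ‖G (z.1, z.2) - G (e, z.2)‖ := by fun_prop
    have h3 := h2.tendsto (e, s)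
    simp only [sub_self, norm_zero] at h3
    exact h3.eventually (gt_mem_nhds hη)
  filter_upwards [key] with e' he' s hs
  have := he' s hs
  simp only [hG, max_eq_left hs.1] at this
  exact this.le

/-! ### A countable family of discs -/

/-- A countable family of closed discs. -/
noncomputable def disc (n m : ℕ) : Set ℂ :=
  closedBall (TopologicalSpace.denseSeq ℂ n) (1 / ((m : ℝ) + 1))

lemma disc_compact (n m : ℕ) : IsCompact (disc n m) := isCompact_closedBall _ _

lemma exists_disc {U : Set ℂ} (hU : IsOpen U) {z : ℂ} (hz : z ∈ U) :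
    ∃ n m, z ∈ disc n m ∧ disc n m ⊆ U := by
  obtain ⟨ε, hε, hb⟩ := Metric.isOpen_iff.1 hU z hz
  obtain ⟨m, hm⟩ := exists_nat_one_div_lt (half_pos hε)
  obtain ⟨n, hn⟩ := (TopologicalSpace.denseRange_denseSeq ℂ).exists_dist_lt z
    (ε := 1 / ((m : ℝ) + 1)) (by positivity)
  refine ⟨n, m, ?_, ?_⟩
  · rw [disc, mem_closedBall]
    exact hn.le
  · intro w hw
    apply hb
    rw [mem_ball]
    rw [disc, mem_closedBall] at hw
    calc dist w z ≤ dist w (TopologicalSpace.denseSeq ℂ n) + dist (TopologicalSpace.denseSeq ℂ n) z :=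
          dist_triangle _ _ _
      _ < ε := by
          rw [dist_comm _ z]
          linarith

lemma eq_of_disc {U V : Set ℂ} (hU : IsOpen U) (hV : IsOpen V)
    (h : ∀ n m, disc n m ⊆ U ↔ disc n m ⊆ V) : U = V := by
  apply Subset.antisymm
  · intro z hz
    obtain ⟨n, m, h1, h2⟩ := exists_disc hU hz
    exact (h n m).1 h2 h1
  · intro z hz
    obtain ⟨n, m, h1, h2⟩ := exists_disc hV hz
    exact (h n m).2 h2 h1

/-! ### Open conditions -/

lemma isOpen_dom {t : ℝ} (ht : 0 ≤ t) {K : Set ℂ} (hK : IsCompact K) :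
    IsOpen {f : C(ℝ≥0, ℝ) | K ⊆ Dom (drv f) t} := by
  rw [isOpen_iff_mem_nhds]
  intro f hf
  obtain ⟨η, h0, -, h1⟩ := dom_stab_compact (drv_cont f) ht hK hf
  filter_upwards [drv_lim (F := 𝓝 f) (f := id) tendsto_id (t + 1) h0] with g hg
  exact (h1 (drv g) (drv_cont g) fun s hs => (hg s hs).le).trans (Dom_anti (by linarith))

lemma isOpen_ext (h : IsChart D a b φ) {t : ℝ} (ht : 0 ≤ t) {K : Set ℂ} (hK : IsCompact K) :
    IsOpen {e : Cur φ a b | K ⊆ Ext (beta φ e) t} := by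
  rw [isOpen_iff_mem_nhds]
  intro e he
  obtain ⟨η, h0, -, h1⟩ := ext_stab_compact (beta_cont h e.2) ht hK he
  filter_upwards [beta_close h e (t + 1) h0] with g hg
  exact (h1 (beta φ g) (beta_cont h g.2) hg).trans (ext_anti (by linarith))

lemma dom_right {W : ℝ → ℝ} (hW : Continuous W) {t : ℝ} (ht : 0 ≤ t) {z : ℂ} (hz : z ∈ Dom W t) :
    ∃ q : ℚ, t < q ∧ z ∈ Dom W q := by
  obtain ⟨η, h0, -, h1⟩ := dom_stab hW ht hz
  obtain ⟨q, hq1, hq2⟩ := exists_rat_btwn (show t < t + η by linarith)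
  have h2 := h1 W hW (fun s _ => by rw [sub_self, abs_zero]; exact h0.le) z
    (by rw [sub_self, norm_zero]; exact h0.le)
  exact ⟨q, hq1, Dom_anti hq2.le h2⟩

lemma ext_right {β : ℝ → ℂ} (hβ : ContinuousOn β (Ici 0)) {t : ℝ} (ht : 0 ≤ t) {z : ℂ}
    (hz : z ∈ Ext β t) : ∃ q : ℚ, t < q ∧ z ∈ Ext β q := by
  obtain ⟨η, h0, -, h1⟩ := ext_stab hβ ht hz
  obtain ⟨q, hq1, hq2⟩ := exists_rat_btwn (show t < t + η by linarith)
  have h2 := h1 β hβ (fun s _ => by rw [sub_self, norm_zero]; exact h0.le) z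
    (by rw [sub_self, norm_zero]; exact h0.le)
  exact ⟨q, hq1, ext_anti hq2.le h2⟩

/-- The relation in terms of countably many conditions. -/
lemma rel_iff (h : IsChart D a b φ) {e : C(I, ℂ)} {f : C(ℝ≥0, ℝ)} :
    Rel φ a b e f ↔ e ∈ Cur φ a b ∧ ∀ q : ℚ, 0 ≤ q → ∀ n m,
      (disc n m ⊆ Dom (drv f) q ↔ disc n m ⊆ Ext (beta φ e) q) := by
  constructor
  · intro H
    refine ⟨⟨H.start, H.stop, H.mem⟩, fun q hq n m => ?_⟩
    have h1 := H.trace.hull q (by exact_mod_cast hq)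
    rw [dom_notSwallowed (drv_cont f)] at h1
    have h2 : Dom (drv f) q = Ext (beta φ e) q := h1
    rw [h2]
  · rintro ⟨he, H⟩
    have eqr : ∀ q : ℚ, 0 ≤ q → Dom (drv f) q = Ext (beta φ e) q := fun q hq =>
      eq_of_disc (Dom_isOpen (drv_cont f).continuousOn (by exact_mod_cast hq))
        (ext_isOpen ((beta_cont h he).mono Icc_subset_Ici_self)) (H q hq)
    refine ⟨he.1, he.2.1, he.2.2, beta_cont h he, fun t ht => psi_mem (cap_mem he ht), ?_, ?_⟩
    · rw [cap_zero, he.1, ← h.zero]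
      exact psi_left h (by change (0:ℝ) ≤ (0:ℂ).im; simp)
    · intro t ht
      rw [dom_notSwallowed (drv_cont f)]
      change Dom (drv f) t = Ext (beta φ e) t
      apply Subset.antisymm
      · intro z hz
        obtain ⟨q, hq, hz'⟩ := dom_right (drv_cont f) ht hz
        rw [eqr q (by exact_mod_cast ht.trans hq.le)] at hz'
        exact ext_anti hq.le hz'
      · intro z hz
        obtain ⟨q, hq, hz'⟩ := ext_right (beta_cont h he) ht hz
        rw [← eqr q (by exact_mod_cast ht.trans hq.le)] at hz'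
        exact Dom_anti hq.le hz'

/-! ### Measurability of the relation -/

section meas

variable [MeasurableSpace C(I, ℂ)] [BorelSpace C(I, ℂ)] [MeasurableSpace C(ℝ≥0, ℝ)]
  [BorelSpace C(ℝ≥0, ℝ)]

omit [MeasurableSpace C(ℝ≥0, ℝ)] [BorelSpace C(ℝ≥0, ℝ)] in
lemma meas_cur (h : IsChart D a b φ) : MeasurableSet (Cur φ a b) := by
  have hc : Cur φ a b = {e | e 0 = a} ∩ {e | e 1 = b} ∩
      {e : C(I, ℂ) | MapsTo e univ (insert b (φ '' cHH))} ∩
      ⋂ m : ℕ, {e : C(I, ℂ) | MapsTo e {s : I | (s : ℝ) ≤ 1 - 1 / ((m : ℝ) + 1)} {b}ᶜ} := by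
    ext e
    simp only [mem_inter_iff, mem_iInter, mem_ofPred_eq]
    constructor
    · rintro ⟨h0, h1, h2⟩
      refine ⟨⟨⟨h0, h1⟩, ?_⟩, ?_⟩
      · intro s _
        rcases lt_or_eq_of_le s.2.2 with h3 | h3
        · exact mem_insert_of_mem _ (h2 s h3)
        · have : s = 1 := by ext; exact h3
          rw [this, h1]
          exact mem_insert _ _
      · intro m s hs hsb
        rw [mem_singleton_iff] at hsb
        apply h.ne
        rw [← hsb]
        apply h2
        have h3 : (s : ℝ) ≤ 1 - 1 / ((m : ℝ) + 1) := hs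
        have h4 : 0 < 1 / ((m : ℝ) + 1) := by positivity
        linarith
    · rintro ⟨⟨⟨h0, h1⟩, h2⟩, h3⟩
      refine ⟨h0, h1, ?_⟩
      intro s hs
      refine (h2 (mem_univ s)).resolve_left ?_
      obtain ⟨m, hm⟩ := exists_nat_one_div_lt (show 0 < 1 - (s : ℝ) by linarith)
      exact h3 m (show (s : ℝ) ≤ 1 - 1 / ((m : ℝ) + 1) by linarith)
  rw [hc]
  have hK : IsCompact (insert b (φ '' cHH)) :=
    Pool.Agent.H54.M7.compact_insert cHH_closed h.cont h.infty
  refine ((MeasurableSet.inter ?_ ?_).inter ?_).inter (MeasurableSet.iInter fun m => ?_)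
  · exact (isClosed_singleton.preimage (continuous_eval_const (0 : I))).measurableSet
  · exact (isClosed_singleton.preimage (continuous_eval_const (1 : I))).measurableSet
  · exact (ContinuousMap.isClosed_setOfPred_mapsTo hK.isClosed univ).measurableSet
  · refine (ContinuousMap.isOpen_setOfPred_mapsTo ?_ isOpen_compl_singleton).measurableSet
    exact (isClosed_le continuous_subtype_val continuous_const).isCompact

/-- **The relation is Borel.** -/
theorem meas_rel (h : IsChart D a b φ) :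
    MeasurableSet {x : C(I, ℂ) × C(ℝ≥0, ℝ) | Rel φ a b x.1 x.2} := by
  set A : ℚ → ℕ → ℕ → Set C(ℝ≥0, ℝ) := fun q n m => {f | disc n m ⊆ Dom (drv f) q} with hA
  set B : ℚ → ℕ → ℕ → Set C(I, ℂ) := fun q n m =>
    Subtype.val '' {e : Cur φ a b | disc n m ⊆ Ext (beta φ e) q} with hB
  have hc : {x : C(I, ℂ) × C(ℝ≥0, ℝ) | Rel φ a b x.1 x.2} = Prod.fst ⁻¹' (Cur φ a b) ∩
      ⋂ q : ℚ, ⋂ (_ : 0 ≤ q), ⋂ n : ℕ, ⋂ m : ℕ,
        ((Prod.snd ⁻¹' (A q n m) ∩ Prod.fst ⁻¹' (B q n m)) ∪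
          ((Prod.snd ⁻¹' (A q n m))ᶜ ∩ (Prod.fst ⁻¹' (B q n m))ᶜ)) := by
    ext ⟨e, f⟩
    simp only [mem_ofPred_eq, rel_iff h, mem_inter_iff, mem_iInter, mem_preimage]
    refine and_congr_right fun he => forall_congr' fun q => forall_congr' fun _ =>
      forall_congr' fun n => forall_congr' fun m => ?_
    have h1 : e ∈ B q n m ↔ disc n m ⊆ Ext (beta φ e) q := by
      simp only [hB, mem_image, mem_ofPred_eq, Subtype.exists, exists_and_right, exists_eq_right]
      exact ⟨fun ⟨_, h2⟩ => h2, fun h2 => ⟨he, h2⟩⟩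
    have h2 : f ∈ A q n m ↔ disc n m ⊆ Dom (drv f) q := Iff.rfl
    simp only [mem_union, mem_inter_iff, mem_compl_iff, mem_preimage, h1, h2]
    tauto
  rw [hc]
  refine (measurable_fst (meas_cur h)).inter ?_
  refine MeasurableSet.iInter fun q => MeasurableSet.iInter fun hq => MeasurableSet.iInter fun n =>
    MeasurableSet.iInter fun m => ?_
  have hq' : (0 : ℝ) ≤ q := by exact_mod_cast hq
  have h1 : MeasurableSet (A q n m) := (isOpen_dom hq' (disc_compact n m)).measurableSet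
  have h2 : MeasurableSet (B q n m) :=
    (meas_cur h).subtype_image (isOpen_ext h hq' (disc_compact n m)).measurableSet
  have h3 : MeasurableSet ((Prod.snd : C(I, ℂ) × C(ℝ≥0, ℝ) → C(ℝ≥0, ℝ)) ⁻¹' (A q n m)) :=
    measurable_snd h1
  have h4 : MeasurableSet ((Prod.fst : C(I, ℂ) × C(ℝ≥0, ℝ) → C(I, ℂ)) ⁻¹' (B q n m)) :=
    measurable_fst h2
  exact (h3.inter h4).union (h3.compl.inter h4.compl)

end meas

/-! ### Uniqueness -/

lemma rel_of (h : IsChart D a b φ) {f : C(ℝ≥0, ℝ)} {η : ℝ → ℂ} {c : PCurve}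
    (hT : IsTrace (drv f) η) (hI : IsImage φ b η c) : Rel φ a b c.toC f := by
  have hcap : ∀ t : ℝ, 0 ≤ t → psi φ (cap c.toC t) = η t := by
    intro t ht
    have h1 : t / (1 + t) < 1 := by
      rw [div_lt_one (by linarith)]
      linarith
    rw [cap_eq _ ht, hI.1 _ h1]
    have h2 : t / (1 + t) / (1 - t / (1 + t)) = t := by
      have : 1 + t ≠ 0 := by positivity
      field_simp
      ring
    simp only [h2]
    exact psi_left h (hT.mem t ht)
  refine ⟨?_, hI.2, ?_, ?_⟩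
  · have h1 := hI.1 0 (by change (0:ℝ) < 1; exact one_pos)
    rw [h1]
    have h2 : ((0 : I) : ℝ) / (1 - ((0 : I) : ℝ)) = 0 := by simp
    rw [h2, hT.zero, h.zero]
  · intro s hs
    rw [hI.1 s hs]
    have h0 := s.2.1
    exact ⟨_, hT.mem _ (div_nonneg h0 (by linarith)), rfl⟩
  · refine ⟨hT.cont.congr fun t ht => hcap t ht, fun t ht => ?_, ?_, fun t ht => ?_⟩
    · rw [hcap t ht]
      exact hT.mem t ht
    · rw [hcap 0 le_rfl]
      exact hT.zero
    · rw [hT.hull t ht]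
      congr 1
      exact image_congr fun u hu => (hcap u hu.1).symm

section unique

variable [MeasurableSpace C(I, ℂ)] [BorelSpace C(I, ℂ)] [MeasurableSpace C(ℝ≥0, ℝ)]
  [BorelSpace C(ℝ≥0, ℝ)]

/-- The set of driving functions whose curve lies in `A`. -/
def SA (φ : ℂ → ℂ) (a b : ℂ) (A : Set Curve) : Set C(ℝ≥0, ℝ) :=
  Prod.snd '' ({x : C(I, ℂ) × C(ℝ≥0, ℝ) | Rel φ a b x.1 x.2} ∩
    {x : C(I, ℂ) × C(ℝ≥0, ℝ) | Curve.mk ⟨x.1⟩ ∈ A})

lemma meas_SA (h : IsChart D a b φ) {A : Set Curve} (hA : MeasurableSet A) :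
    MeasurableSet (SA φ a b A) := by
  have hmk : Measurable (fun z : C(I, ℂ) × C(ℝ≥0, ℝ) => Curve.mk ⟨z.1⟩) :=
    continuous_mk.measurable.comp measurable_fst
  refine ((meas_rel h).inter (hmk hA)).image_of_measurable_injOn measurable_snd ?_
  rintro ⟨e, f⟩ ⟨h1, -⟩ ⟨e', f'⟩ ⟨h2, -⟩ h3
  have h3' : f = f' := h3
  subst h3'
  have h4 : e = e' := Rel.unique h1 h2
  rw [h4]

/-- The law of the curve in terms of the Wiener measure. -/
theorem law_formula (h : IsChart D a b φ) {κ : ℝ} (hκ : 0 < κ) {μ : ProbabilityMeasure Curve}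
    {Ω : Type} [MeasurableSpace Ω] {P : Measure Ω} [IsProbabilityMeasure P]
    {B : ℝ≥0 → Ω → ℝ} {η : Ω → ℝ → ℂ} {c : Ω → PCurve} (hB : IsBrownianReal B P)
    (hη : ∀ᵐ ω ∂P, IsTrace (fun t => √κ * B t.toNNReal ω) (η ω))
    (hc : ∀ᵐ ω ∂P, IsImage φ b (η ω) (c ω))
    (hm : AEMeasurable (fun ω => Curve.mk (c ω)) P)
    (hμ : P.map (fun ω => Curve.mk (c ω)) = μ) :
    ∃ ν : Measure C(ℝ≥0, ℝ), IsProbabilityMeasure ν ∧
      IsPreBrownianReal (fun (s : ℝ≥0) (z : C(ℝ≥0, ℝ)) => (√κ)⁻¹ * z s) ν ∧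
      ∀ A : Set Curve, MeasurableSet A → (μ : Measure Curve) A = ν (SA φ a b A) := by
  classical
  have hsq : √κ ≠ 0 := (Real.sqrt_pos.2 hκ).ne'
  let f : Ω → C(ℝ≥0, ℝ) := fun ω =>
    if hc : Continuous (fun t => B t ω) then ⟨fun t => √κ * B t ω, continuous_const.mul hc⟩ else 0
  have hfv : ∀ᵐ ω ∂P, ∀ t, f ω t = √κ * B t ω := by
    filter_upwards [hB.cont] with ω hω t
    simp only [f, dif_pos hω, ContinuousMap.coe_mk]
  have hfm : AEMeasurable f P := by
    obtain ⟨D', hDc, hD⟩ := TopologicalSpace.exists_countable_dense ℝ≥0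
    have hDc' : Countable D' := hDc.to_subtype
    let Φ : C(ℝ≥0, ℝ) → (D' → ℝ) := fun f d => f d
    have hΦm : Measurable Φ := measurable_pi_lambda _ fun d => Pool.Agent.H54.M7.measurable_eval _
    have hΦi : Function.Injective Φ := by
      intro f g hfg
      apply DFunLike.coe_injective
      refine f.continuous.ext_on hD g.continuous ?_
      intro x hx
      exact congrFun hfg ⟨x, hx⟩
    have hemb : MeasurableEmbedding Φ := hΦm.measurableEmbedding hΦi
    refine hemb.aemeasurable_comp_iff.1 (aemeasurable_pi_iff.2 fun d => ?_)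
    refine ((hB.aemeasurable (d : ℝ≥0)).const_mul (√κ)).congr ?_
    filter_upwards [hfv] with ω hω
    exact (hω d).symm
  refine ⟨P.map f, Measure.isProbabilityMeasure_map hfm, ⟨fun S => ⟨?_, ?_⟩⟩, ?_⟩
  · exact (measurable_pi_lambda _ fun j =>
      (Pool.Agent.H54.M7.measurable_eval _).const_mul _).aemeasurable
  · have hr : Measurable fun (g : C(ℝ≥0, ℝ)) => S.restrict fun t => (√κ)⁻¹ * g t :=
      measurable_pi_lambda _ fun j => (Pool.Agent.H54.M7.measurable_eval _).const_mul _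
    rw [AEMeasurable.map_map_of_aemeasurable hr.aemeasurable hfm, ← (hB.hasLaw S).map_eq]
    apply Measure.map_congr
    filter_upwards [hfv] with ω hω
    funext j
    simp only [Function.comp_apply, Finset.restrict_def, hω]
    field_simp
  · intro A hA
    rw [← hμ, Measure.map_apply_of_aemeasurable hm hA,
      Measure.map_apply_of_aemeasurable hfm (meas_SA h hA)]
    apply measure_congr
    have hrel : ∀ᵐ ω ∂P, Rel φ a b (c ω).toC (f ω) := by
      filter_upwards [hfv, hη, hc] with ω h1 h2 h3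
      refine rel_of h (η := η ω) ?_ h3
      have e1 : drv (f ω) = fun t : ℝ => √κ * B t.toNNReal ω := by
        funext t
        exact h1 _
      rw [e1]
      exact h2
    filter_upwards [hrel] with ω hω
    apply propext
    constructor
    · intro h1
      exact ⟨((c ω).toC, f ω), ⟨hω, h1⟩, rfl⟩
    · rintro ⟨⟨e, g⟩, ⟨h1, h2⟩, h3⟩
      have h3' : g = f ω := h3
      subst h3'
      have h4 : e = (c ω).toC := Rel.unique h1 hω
      have h5 : Curve.mk ⟨e⟩ ∈ A := h2
      rw [h4] at h5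
      exact h5

end unique

/-- **The law of chordal SLE is unique.** -/
theorem isSLE_unique {κ : ℝ} (hκ : 0 < κ) (h : IsChart D a b φ) {μ ν : ProbabilityMeasure Curve}
    (hμ : IsSLE κ D a b μ) (hν : IsSLE κ D a b ν) : μ = ν := by
  let m1 : MeasurableSpace C(I, ℂ) := borel _
  have b1 : BorelSpace C(I, ℂ) := ⟨rfl⟩
  let m2 : MeasurableSpace C(ℝ≥0, ℝ) := borel _
  have b2 : BorelSpace C(ℝ≥0, ℝ) := ⟨rfl⟩
  obtain ⟨Ω, mΩ, P, hP, B, η, c, hB, h1, h2, h3, h4⟩ := hμ φ h
  obtain ⟨Ω', mΩ', P', hP', B', η', c', hB', h1', h2', h3', h4'⟩ := hν φ h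
  obtain ⟨ρ, hρ, hρB, hρA⟩ := law_formula h hκ hB h1 h2 h3 h4
  obtain ⟨ρ', hρ', hρB', hρA'⟩ := law_formula h hκ hB' h1' h2' h3' h4'
  have h5 : ρ = ρ' := Pool.Agent.H54.M7.brown_unique (Real.sqrt_pos.2 hκ).ne' hρB hρB'
  apply Subtype.ext
  ext A hA
  have h6 := hρA A hA
  rw [h5, ← hρA' A hA] at h6
  exact h6

/-- The law of chordal SLE in a Jordan domain is unique. -/
theorem isSLE_unique' {κ : ℝ} (hκ : 0 < κ) (h : ∃ φ : ℂ → ℂ, IsChart D a b φ)
    {μ ν : ProbabilityMeasure Curve} (hμ : IsSLE κ D a b μ) (hν : IsSLE κ D a b ν) : μ = ν :=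
  isSLE_unique hκ h.choose_spec hμ hν

end Pool.Agent.H12.Q1
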